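import Pool.Agent.N816.M17.HasseG
import Pool.Agent.N974.MF.FOUR
import Pool.Agent.N974.MF.TORS
import Pool.Agent.W165.CE.FF

/-!
The curve `17a1 = [1, -1, 1, -1, -14]`: the coefficient of `q^p` modulo `p`, the divisibility of the
number of points by four, small primes, the torsion values of the Weierstrass function and Hasse's
bound (project P17, MOD17 part A).
-/

set_option autoImplicit false

namespace Pool.Agent.N816.M17

open WeierstrassCurve WeierstrassCurve.Affine
open Pool.Agent.W97.MT (affCount ap)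

/-- The curve `y² + xy + y = x³ - x² - x - 14` (the modular curve `X_0(17)`). -/
def E17 : WeierstrassCurve ℤ := ⟨1, -1, 1, -1, -14⟩

/-- TORS -/
def S_TORS17 : Prop := ∀ L : PeriodPair, L.g₂ = 11 / 4 → L.g₃ = 12015 / 216 →
  ∀ u : ℂ, u ∉ L.lattice →
    (L.weierstrassP u = 27 / 4 → 2 * u ∉ L.lattice ∧ L.weierstrassP (2 * u) = 5 / 2 ∧
      4 * u ∈ L.lattice) ∧
    (L.weierstrassP u = 5 / 2 → 2 * u ∈ L.lattice)

/-- HASSE: the coefficient of `q^p` modulo `p` -/
def S_HASSE17 : Prop := ∀ (p : ℕ) [Fact p.Prime], p ≠ 2 → ∀ φ ξ σ : PowerSeries (ZMod p),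
  PowerSeries.constantCoeff ξ = 1 → PowerSeries.constantCoeff σ = -2 →
  PowerSeries.X * PowerSeries.derivative (ZMod p) ξ - 2 * ξ = φ * σ →
  σ ^ 2 = 4 * ξ ^ 3 - 3 * PowerSeries.X ^ 2 * ξ ^ 2 - 2 * PowerSeries.X ^ 4 * ξ -
    55 * PowerSeries.X ^ 6 →
  PowerSeries.coeff (p - 1) φ = (ap E17 p : ZMod p)

/-- FOUR: four divides the number of points -/
def S_FOUR17 : Prop := ∀ (p : ℕ), p.Prime → p ≠ 2 → p ≠ 17 → 4 ∣ affCount E17 p + 1

/-- MIN -/
def S_MIN17 : Prop := affCount E17 2 = 3 ∧ affCount E17 3 = 3 ∧ affCount E17 17 = 16 ∧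
  ∀ p : ℕ, p.Prime → affCount E17 p ≤ 2 * p

theorem s_hasse17 : S_HASSE17 := by
  intro p _ hp φ ξ σ hξ hσ h1 h2
  have b2 : E17.b₂ = -3 := by simp [WeierstrassCurve.b₂, E17]
  have b4 : E17.b₄ = -1 := by simp [WeierstrassCurve.b₄, E17]
  have b6 : E17.b₆ = -55 := by simp [WeierstrassCurve.b₆, E17]
  refine HG.hasse_gen E17 p hp φ ξ σ hξ hσ h1 (c2 := -3) (c1 := -2) (c0 := -55) ?_ ?_ ?_ ?_
  · rw [b2]; push_cast; ring
  · rw [b4]; push_cast; ring
  · rw [b6]; push_cast; ring
  · rw [h2]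
    simp only [map_neg, map_ofNat]
    ring

theorem e17_eq (p : ℕ) (P : ZMod p × ZMod p) :
    (E17.map (Int.castRingHom (ZMod p))).toAffine.Equation P.1 P.2 ↔
      P.2 ^ 2 + P.1 * P.2 + P.2 = P.1 ^ 3 - P.1 ^ 2 - P.1 - 14 := by
  have ha1 : (E17.map (Int.castRingHom (ZMod p))).a₁ = 1 := by simp [E17]
  have ha2 : (E17.map (Int.castRingHom (ZMod p))).a₂ = -1 := by simp [E17]
  have ha3 : (E17.map (Int.castRingHom (ZMod p))).a₃ = 1 := by simp [E17]
  have ha4 : (E17.map (Int.castRingHom (ZMod p))).a₄ = -1 := by simp [E17]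
  have ha6 : (E17.map (Int.castRingHom (ZMod p))).a₆ = -14 := by simp [E17]
  rw [WeierstrassCurve.Affine.equation_iff, ha1, ha2, ha3, ha4, ha6]
  constructor <;> intro h <;> linear_combination h

theorem aff_eq (p : ℕ) [NeZero p] : affCount E17 p =
    (Finset.univ.filter (fun P : ZMod p × ZMod p =>
      P.2 ^ 2 + P.1 * P.2 + P.2 = P.1 ^ 3 - P.1 ^ 2 - P.1 - 14)).card := by
  unfold affCount
  rw [Nat.card_congr (Equiv.subtypeEquivRight (e17_eq p)), Nat.card_eq_fintype_card,
    Fintype.card_subtype]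

theorem s_four17 : S_FOUR17 := by
  classical
  intro p hp h2 h17
  haveI : Fact p.Prime := ⟨hp⟩
  have hne : ∀ n : ℕ, (n : ZMod p) = 0 → p ∣ n := fun n h => (ZMod.natCast_eq_zero_iff n p).1 h
  have h2' : (2 : ZMod p) ≠ 0 := by
    intro h
    have := hne 2 (by exact_mod_cast h)
    exact h2 ((Nat.prime_dvd_prime_iff_eq hp Nat.prime_two).1 this)
  have h17' : (17 : ZMod p) ≠ 0 := by
    intro h
    have := hne 17 (by exact_mod_cast h)
    exact h17 ((Nat.prime_dvd_prime_iff_eq hp (by norm_num)).1 this)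
  set W : WeierstrassCurve (ZMod p) := E17.map (Int.castRingHom (ZMod p)) with hW
  have ha1 : W.a₁ = 1 := by simp [hW, E17]
  have ha2 : W.a₂ = -1 := by simp [hW, E17]
  have ha3 : W.a₃ = 1 := by simp [hW, E17]
  have ha4 : W.a₄ = -1 := by simp [hW, E17]
  have ha6 : W.a₆ = -14 := by simp [hW, E17]
  have hΔ : W.Δ ≠ 0 := by
    have : W.Δ = -17 ^ 4 := by
      simp only [WeierstrassCurve.Δ, WeierstrassCurve.b₂, WeierstrassCurve.b₄, WeierstrassCurve.b₆,
        WeierstrassCurve.b₈, ha1, ha2, ha3, ha4, ha6]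
      norm_num
    rw [this]
    exact neg_ne_zero.2 (pow_ne_zero _ h17')
  haveI : W.IsElliptic := ⟨isUnit_iff_ne_zero.2 hΔ⟩
  have hcard : Nat.card (WeierstrassCurve.Affine.Point W.toAffine) = affCount E17 p + 1 := by
    rw [Nat.card_congr (pointEquiv W.toAffine)]
    unfold affCount
    exact Finite.card_option
  haveI : Finite (WeierstrassCurve.Affine.Point W.toAffine) := by
    haveI : Finite (WithZero {xy : ZMod p × ZMod p // W.toAffine.Equation xy.fst xy.snd}) :=
      inferInstanceAs (Finite (Option {xy : ZMod p × ZMod p //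
        W.toAffine.Equation xy.fst xy.snd}))
    exact Finite.of_equiv _ (pointEquiv W.toAffine).symm
  -- a point of order four: `(7, 13)`, whose double is `(11/4, -15/8)`
  have hQe : W.toAffine.Equation 7 13 := by
    rw [WeierstrassCurve.Affine.equation_iff, ha1, ha2, ha3, ha4, ha6]; norm_num
  have hTe : W.toAffine.Equation (11 / 4) (-15 / 8) := by
    rw [WeierstrassCurve.Affine.equation_iff, ha1, ha2, ha3, ha4, ha6]
    have h4' : (4 : ZMod p) ≠ 0 := by
      rw [show (4 : ZMod p) = 2 * 2 by norm_num]; exact mul_ne_zero h2' h2'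
    have h8' : (8 : ZMod p) ≠ 0 := by
      rw [show (8 : ZMod p) = 2 * 4 by norm_num]; exact mul_ne_zero h2' h4'
    field_simp
    ring
  have hQn := (equation_iff_nonsingular (W := W.toAffine)).1 hQe
  have hTn := (equation_iff_nonsingular (W := W.toAffine)).1 hTe
  have h4' : (4 : ZMod p) ≠ 0 := by
    rw [show (4 : ZMod p) = 2 * 2 by norm_num]; exact mul_ne_zero h2' h2'
  have h8' : (8 : ZMod p) ≠ 0 := by
    rw [show (8 : ZMod p) = 2 * 4 by norm_num]; exact mul_ne_zero h2' h4'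
  have hT2 : (Point.some _ _ hTn : W.toAffine.Point) + Point.some _ _ hTn = 0 := by
    apply Point.add_self_of_Y_eq
    rw [negY, ha1, ha3]
    field_simp
    ring
  have h34 : (34 : ZMod p) ≠ 0 := by
    rw [show (34 : ZMod p) = 2 * 17 by norm_num]
    exact mul_ne_zero h2' h17'
  have hY : (13 : ZMod p) ≠ W.toAffine.negY 7 13 := by
    rw [negY, ha1, ha3]
    intro h
    apply h34
    linear_combination h
  have hsl : W.toAffine.slope 7 7 13 13 = 7 / 2 := by
    rw [slope_of_Y_ne rfl hY, ha1, ha2, ha4, negY, ha1, ha3]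
    rw [div_eq_div_iff _ h2']
    · norm_num
    · intro h; apply h34; linear_combination h
  have hQQ : (Point.some _ _ hQn : W.toAffine.Point) + Point.some _ _ hQn =
      Point.some _ _ hTn := by
    rw [Point.add_self_of_Y_ne hY]
    have e1 : W.toAffine.addX 7 7 (W.toAffine.slope 7 7 13 13) = 11 / 4 := by
      rw [hsl, addX, ha1, ha2]
      field_simp
      ring
    have e2 : W.toAffine.addY 7 7 13 (W.toAffine.slope 7 7 13 13) = -15 / 8 := by
      rw [addY, negAddY, e1, hsl, negY, ha1, ha3]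
      field_simp
      ring
    simp only [e1, e2]
  have hQ4 : addOrderOf (Point.some _ _ hQn : W.toAffine.Point) = 2 ^ (1 + 1) := by
    haveI : Fact (Nat.Prime 2) := ⟨Nat.prime_two⟩
    apply addOrderOf_eq_prime_pow
    · rw [pow_one, two_nsmul, hQQ]
      exact Point.some_ne_zero _
    · rw [show (2 : ℕ) ^ (1 + 1) = 2 + 2 by norm_num, add_nsmul, two_nsmul, hQQ, hT2]
  rw [← hcard]
  have : 2 ^ (1 + 1) ∣ Nat.card (WeierstrassCurve.Affine.Point W.toAffine) := by
    rw [← hQ4]; exact addOrderOf_dvd_natCard _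
  simpa using this

theorem s_min17 : S_MIN17 := by
  refine ⟨?_, ?_, ?_, ?_⟩
  · rw [aff_eq 2]; decide
  · rw [aff_eq 3]; decide
  · rw [aff_eq 17]; decide +kernel
  · intro p hp
    haveI : Fact p.Prime := ⟨hp⟩
    haveI : NeZero p := ⟨hp.ne_zero⟩
    rw [aff_eq]
    have h1 : (Finset.univ.filter (fun P : ZMod p × ZMod p =>
        P.2 ^ 2 + P.1 * P.2 + P.2 = P.1 ^ 3 - P.1 ^ 2 - P.1 - 14)).card ≤
        2 * (Finset.univ : Finset (ZMod p)).card := by
      apply Finset.card_le_mul_card_image_of_maps_to (f := Prod.fst)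
      · intro _ _; exact Finset.mem_univ _
      · intro x _
        rcases Finset.eq_empty_or_nonempty ((Finset.univ.filter (fun P : ZMod p × ZMod p =>
          P.2 ^ 2 + P.1 * P.2 + P.2 = P.1 ^ 3 - P.1 ^ 2 - P.1 - 14)).filter
            (fun P => P.1 = x)) with h | h
        · rw [h]; simp
        · obtain ⟨⟨x0, y0⟩, h0⟩ := h
          simp only [Finset.mem_filter, Finset.mem_univ, true_and] at h0
          obtain ⟨h0, rfl⟩ := h0
          refine le_trans (Finset.card_le_card (t := {(x0, y0), (x0, -x0 - 1 - y0)}) ?_)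
            Finset.card_le_two
          rintro ⟨x1, y1⟩ h1
          simp only [Finset.mem_filter, Finset.mem_univ, true_and] at h1
          obtain ⟨h1, rfl⟩ := h1
          have h2 : (y1 - y0) * (y1 - (-x1 - 1 - y0)) = 0 := by linear_combination h1 - h0
          rcases mul_eq_zero.1 h2 with h3 | h3
          · rw [sub_eq_zero.1 h3]; simp
          · rw [sub_eq_zero.1 h3]; simp
    rwa [Finset.card_univ, ZMod.card] at h1

/-! ### torsion -/

open Pool.Agent.Helper487.ECM
open Pool.Agent.W349.MT (dwp_zero)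

/-- duplication -/
theorem dup (L : PeriodPair) {a b : ℂ} (hg2 : L.g₂ = a) (hg3 : L.g₃ = b) {u : ℂ}
    (hu : u ∉ L.lattice) {x s : ℂ} (hP : L.weierstrassP u = x)
    (hs : s = 4 * x ^ 3 - a * x - b) (hs0 : s ≠ 0) :
    2 * u ∉ L.lattice ∧ L.weierstrassP (2 * u) =
      -2 * x + (6 * x ^ 2 - a / 2) ^ 2 / (4 * s) := by
  have hu' : u ∈ Dom L := hu
  have hY1 : L.derivWeierstrassP u ^ 2 = s := by
    rw [L.derivWeierstrassP_sq u hu, hP, hg2, hg3, hs]
  have hY1ne : L.derivWeierstrassP u ≠ 0 := by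
    intro h; rw [h] at hY1; exact hs0 (by rw [← hY1]; norm_num)
  have h2u : 2 * u ∉ L.lattice := fun h => hY1ne (dwp_zero L u h)
  have h2u' : u + u ∈ Dom L := by
    show u + u ∉ L.lattice
    rw [← two_mul]; exact h2u
  refine ⟨h2u, ?_⟩
  have h := wp_dup L hu' h2u' (by rw [wp_one_eq]; exact hY1ne)
  rw [wp_two L hu', wp_one_eq, wp_zero_eq, hP, hg2, ← two_mul] at h
  rw [h, div_pow, mul_pow, hY1]
  ring

/-- points of order two -/
theorem two_tors (L : PeriodPair) {a b : ℂ} (hg2 : L.g₂ = a) (hg3 : L.g₃ = b) {u : ℂ}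
    (hu : u ∉ L.lattice) {x : ℂ} (hP : L.weierstrassP u = x)
    (hs : 4 * x ^ 3 - a * x - b = 0) : 2 * u ∈ L.lattice := by
  by_contra h6
  have h := Wg.wpd_ne L u h6
  apply h
  have hsq := L.derivWeierstrassP_sq _ hu
  rw [hP, hg2, hg3, hs] at hsq
  exact pow_eq_zero_iff (two_ne_zero) |>.1 hsq

theorem s_tors17 : S_TORS17 := by
  intro L hg2 hg3 u hu
  have four : 4 * u = 2 * (2 * u) := by ring
  refine ⟨fun hP => ?_, fun hP => ?_⟩
  · obtain ⟨h1, h2⟩ := dup L hg2 hg3 hu hP (s := 1156) (by norm_num) (by norm_num)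
    have h3 : L.weierstrassP (2 * u) = 5 / 2 := by rw [h2]; norm_num
    exact ⟨h1, h3, by rw [four]; exact two_tors L hg2 hg3 h1 h3 (by norm_num)⟩
  · exact two_tors L hg2 hg3 hu hP (by norm_num)

/-! ### the short equation and Hasse's bound -/

theorem points_card (l : ℕ) (hl : l.Prime) (h2 : l ≠ 2) (h3 : l ≠ 3) :
    affCount E17 l = Nat.card {x : ZMod l × ZMod l //
      x.2 ^ 2 = x.1 ^ 3 + ((-891 : ℤ) : ZMod l) * x.1 + ((-648810 : ℤ) : ZMod l)} := by
  have : Fact l.Prime := ⟨hl⟩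
  have hne : ∀ n : ℕ, (n : ZMod l) = 0 → l ∣ n := fun n h => (ZMod.natCast_eq_zero_iff n l).1 h
  have n2 : (2 : ZMod l) ≠ 0 := by
    intro h
    exact h2 ((Nat.prime_dvd_prime_iff_eq hl Nat.prime_two).1 (hne 2 (by exact_mod_cast h)))
  have n3 : (3 : ZMod l) ≠ 0 := by
    intro h
    exact h3 ((Nat.prime_dvd_prime_iff_eq hl Nat.prime_three).1 (hne 3 (by exact_mod_cast h)))
  have n36 : (36 : ZMod l) ≠ 0 := by
    rw [show (36 : ZMod l) = 2 * 2 * (3 * 3) by norm_num]
    exact mul_ne_zero (mul_ne_zero n2 n2) (mul_ne_zero n3 n3)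
  have n216 : (216 : ZMod l) ≠ 0 := by
    rw [show (216 : ZMod l) = 2 * 3 * 36 by norm_num]
    exact mul_ne_zero (mul_ne_zero n2 n3) n36
  unfold affCount
  refine Nat.card_congr
    { toFun := fun x => ⟨(36 * x.1.1 - 9, 216 * x.1.2 + 108 * x.1.1 + 108), ?_⟩
      invFun := fun x => ⟨((x.1.1 + 9) / 36, (x.1.2 - 3 * (x.1.1 + 9) - 108) / 216), ?_⟩
      left_inv := ?_
      right_inv := ?_ }
  · have h := x.2
    rw [WeierstrassCurve.Affine.equation_iff] at h
    simp only [E17, WeierstrassCurve.map, map_one, map_zero, map_neg, map_ofNat] at h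
    push_cast at h ⊢
    linear_combination 46656 * h
  · have h := x.2
    rw [WeierstrassCurve.Affine.equation_iff]
    simp only [E17, WeierstrassCurve.map, map_one, map_zero, map_neg, map_ofNat]
    push_cast at h ⊢
    have e1 : x.1.1 = 36 * ((x.1.1 + 9) / 36) - 9 := by field_simp; ring
    have e2 : x.1.2 = 216 * ((x.1.2 - 3 * (x.1.1 + 9) - 108) / 216) + 108 * ((x.1.1 + 9) / 36) + 108 := by
      field_simp
      ring
    set u := (x.1.1 + 9) / 36 with hu
    set v := (x.1.2 - 3 * (x.1.1 + 9) - 108) / 216 with hv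
    rw [e1, e2] at h
    have n46656 : (46656 : ZMod l) ≠ 0 := by
      rw [show (46656 : ZMod l) = 216 * 216 by norm_num]
      exact mul_ne_zero n216 n216
    apply mul_left_cancel₀ n46656
    linear_combination h
  · intro x
    ext
    · show (36 * x.1.1 - 9 + 9) / 36 = x.1.1
      field_simp
      ring
    · show (216 * x.1.2 + 108 * x.1.1 + 108 - 3 * (36 * x.1.1 - 9 + 9) - 108) / 216 = x.1.2
      field_simp
      ring
  · intro x
    ext
    · show 36 * ((x.1.1 + 9) / 36) - 9 = x.1.1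
      field_simp
      ring
    · show 216 * ((x.1.2 - 3 * (x.1.1 + 9) - 108) / 216) + 108 * ((x.1.1 + 9) / 36) + 108 = x.1.2
      field_simp
      ring

/-- Hasse's bound, all primes different from `17` -/
theorem good17 (l : ℕ) (hl : l.Prime) : |((ap E17 l : ℤ) : ℝ)| ≤ 2 * Real.sqrt l := by
  obtain ⟨m2, m3, m17, mb⟩ := s_min17
  by_cases h2 : l = 2
  · subst h2
    unfold ap
    rw [m2]
    have h1 : (1 : ℝ) ≤ Real.sqrt 2 := Real.one_le_sqrt.2 (by norm_num)
    have e : ((((2 : ℕ) : ℤ) - ((3 : ℕ) : ℤ) : ℤ) : ℝ) = -1 := by norm_num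
    rw [e, abs_neg, abs_one]
    push_cast
    linarith
  · by_cases h3 : l = 3
    · subst h3
      unfold ap
      rw [m3]
      simp
    · have : Fact l.Prime := ⟨hl⟩
      have hc : ringChar (ZMod l) ≠ 2 := by
        rw [ZMod.ringChar_zmod_n]; exact h2
      have h := W165.CE.hasse (k := ZMod l) hc ((-891 : ℤ) : ZMod l) ((-648810 : ℤ) : ZMod l)
      rw [ZMod.card] at h
      unfold ap
      rw [points_card l hl h2 h3]
      exact_mod_cast h

theorem ap17 : ap E17 17 = 1 := by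
  unfold ap
  rw [s_min17.2.2.1]
  norm_num

end Pool.Agent.N816.M17
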